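import Pool.Agent.Y966.LD.Main4b

/-!
The Syracuse map on negative odd integers and the map `T`.
-/

set_option autoImplicit false
set_option linter.unusedVariables false

namespace Pool.Agent.Y966.Ng

open Finset Filter Topology Pool.Agent.H395R2.G3 Pool.Agent.Y966.LD

/-- the Syracuse map -/
def Sy (m : ℤ) : ℤ := (3 * m + 1) / 2 ^ padicValInt 2 (3 * m + 1)

theorem Sy_letter {m c : ℤ} {e : ℕ} (hc : c % 2 = 1) (h : 3 * m + 1 = 2 ^ e * c) : Sy m = c := by
  unfold Sy
  have hc0 : c.natAbs ≠ 0 := by omega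
  have h1 : padicValInt 2 (3 * m + 1) = e := by
    rw [h]
    unfold padicValInt
    have h2 : ((2 : ℤ) ^ e * c).natAbs = 2 ^ e * c.natAbs := by
      rw [Int.natAbs_mul, Int.natAbs_pow]
      rfl
    rw [h2, padicValNat.mul (by positivity) hc0, padicValNat.prime_pow,
      padicValNat.eq_zero_of_not_dvd (by omega), add_zero]
  rw [h1, h]
  exact Int.mul_ediv_cancel_left c (by positivity)

theorem exists_letter {m : ℤ} (hm : m % 2 = 1) : ∃ e : ℕ, 1 ≤ e ∧ 3 * m + 1 = 2 ^ e * Sy m ∧
    Sy m % 2 = 1 := by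
  have h0 : (3 * m + 1).natAbs ≠ 0 := by omega
  obtain ⟨e, c, hc, h⟩ := Nat.exists_eq_two_pow_mul_odd h0
  have hc' : c % 2 = 1 := Nat.odd_iff.1 hc
  have hz : ∃ d : ℤ, d % 2 = 1 ∧ 3 * m + 1 = 2 ^ e * d := by
    rcases Int.natAbs_eq (3 * m + 1) with h1 | h1
    · refine ⟨c, by omega, ?_⟩
      rw [h1, h]
      push_cast
      rfl
    · refine ⟨-c, by omega, ?_⟩
      rw [h1, h]
      push_cast
      ring
  obtain ⟨d, hd, hde⟩ := hz
  have he : 1 ≤ e := by
    rcases Nat.eq_zero_or_pos e with rfl | h'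
    · rw [pow_zero, one_mul] at hde
      omega
    · exact h'
  have := Sy_letter hd hde
  rw [this]
  exact ⟨e, he, hde, hd⟩

/-- the iterates of `T` inside a letter are even -/
theorem letter_even {m c : ℤ} {e : ℕ} (h : 3 * m + 1 = 2 ^ e * c) (hm : m % 2 = 1) {j : ℕ}
    (hj : 1 ≤ j) (hje : j < e) : TZ^[j] m % 2 = 0 := by
  obtain ⟨i, rfl⟩ : ∃ i, e = j + (i + 1) := ⟨e - j - 1, by omega⟩
  have h3 : TZ^[j] m = 2 ^ (i + 1) * c := (TZ_letter hj (by rw [h, pow_add]; ring)).1
  rw [h3, pow_succ]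
  have : (2 : ℤ) ^ i * 2 * c = 2 * (2 ^ i * c) := by ring
  omega

theorem Sy_to_T (k : ℕ) : ∀ m : ℤ, m % 2 = 1 → ∃ s : ℕ, TZ^[s] m = Sy^[k] m ∧ oc s m = k := by
  induction k with
  | zero => intro m _; exact ⟨0, rfl, oc_zero m⟩
  | succ k ih =>
    intro m hm
    obtain ⟨e, he, heq, hc⟩ := exists_letter hm
    obtain ⟨p1, p2, _⟩ := TZ_letter he heq
    obtain ⟨s, h1, h2⟩ := ih (Sy m) hc
    refine ⟨e + s, ?_, ?_⟩
    · rw [add_comm, Function.iterate_add_apply, p1, h1, Function.iterate_succ_apply]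
    · rw [oc_add, p1, p2, h2, add_comm]

theorem T_to_Sy (s : ℕ) : ∀ m : ℤ, m % 2 = 1 → TZ^[s] m % 2 = 1 → Sy^[oc s m] m = TZ^[s] m := by
  induction s using Nat.strong_induction_on with
  | _ s ih =>
    intro m hm hs
    rcases Nat.eq_zero_or_pos s with rfl | h0
    · rw [oc_zero]
      rfl
    obtain ⟨e, he, heq, hc⟩ := exists_letter hm
    obtain ⟨p1, p2, _⟩ := TZ_letter he heq
    have hse : e ≤ s := by
      by_contra hlt
      have := letter_even heq hm h0 (by omega)
      omega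
    obtain ⟨t, rfl⟩ : ∃ t, s = e + t := ⟨s - e, by omega⟩
    have h3 : TZ^[e + t] m = TZ^[t] (Sy m) := by
      rw [add_comm, Function.iterate_add_apply, p1]
    rw [h3] at hs ⊢
    rw [oc_add, p1, p2, add_comm, Function.iterate_succ_apply]
    exact ih t (by omega) (Sy m) hc hs

/-- `m` is periodic -/
def Per (m : ℤ) : Prop := ∃ p : ℕ, 1 ≤ p ∧ Sy^[p] m = m

theorem Per_iter {m : ℤ} (h : Per m) (k : ℕ) : Per (Sy^[k] m) := by
  obtain ⟨p, hp, h⟩ := h
  refine ⟨p, hp, ?_⟩
  rw [← Function.iterate_add_apply, add_comm, Function.iterate_add_apply, h]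

theorem Per_inj {x y : ℤ} (hx : Per x) (hy : Per y) (h : Sy x = Sy y) : x = y := by
  obtain ⟨p, hp, hpx⟩ := hx
  obtain ⟨q, hq, hqy⟩ := hy
  have h1 : Sy^[p * q] x = x := by
    rw [Function.iterate_mul]
    exact Function.iterate_fixed hpx q
  have h2 : Sy^[p * q] y = y := by
    rw [mul_comm, Function.iterate_mul]
    exact Function.iterate_fixed hqy p
  have h3 : p * q = (p * q - 1) + 1 := by
    have : 1 ≤ p * q := Nat.mul_pos hp hq
    omega
  rw [h3, Function.iterate_succ_apply] at h1 h2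
  rw [← h1, ← h2, h]

theorem Per_of_T {m : ℤ} (hm : m % 2 = 1) {p : ℕ} (hp : 1 ≤ p) (h : TZ^[p] m = m) : Per m := by
  refine ⟨oc p m, ?_, ?_⟩
  · obtain ⟨q, rfl⟩ : ∃ q, p = q + 1 := ⟨p - 1, by omega⟩
    rw [oc_succ', if_pos hm]
    omega
  · rw [T_to_Sy p m hm (by rw [h]; exact hm), h]

theorem TZ_neg {m : ℤ} (h : m < 0) : TZ m < 0 := by
  unfold TZ
  split_ifs <;> omega

theorem TZ_iter_neg {m : ℤ} (h : m < 0) (k : ℕ) : TZ^[k] m < 0 := by
  induction k with
  | zero => exact h
  | succ k ih => rw [Function.iterate_succ_apply']; exact TZ_neg ih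

/-- the size identity for negative integers -/
theorem size_neg {m : ℤ} (h : m < 0) (k : ℕ) :
    (3 : ℝ) ^ oc k m * |(m : ℝ)| = 2 ^ k * |((TZ^[k] m : ℤ) : ℝ)| *
      ∏ i ∈ (range k).filter (fun i => TZ^[i] m % 2 = 1),
        (1 + 1 / (3 * |((TZ^[i] m : ℤ) : ℝ)| - 1)) := by
  induction k with
  | zero => simp [oc_zero]
  | succ k ih =>
    have hx := TZ_iter_neg h k
    rw [oc_succ, range_add_one, filter_insert, Function.iterate_succ_apply', pow_succ]
    set x := TZ^[k] m with hxdef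
    have hx1 : (1 : ℝ) ≤ |(x : ℝ)| := by
      have : (1 : ℤ) ≤ |x| := by rw [abs_of_neg hx]; omega
      exact_mod_cast this
    have hTx := TZ_neg hx
    by_cases hodd : x % 2 = 1
    · rw [if_pos hodd, if_pos hodd, prod_insert (by simp)]
      have h1 : 2 * TZ x = 3 * x + 1 := by
        unfold TZ
        rw [if_neg (by omega)]
        omega
      have h1' : 2 * |((TZ x : ℤ) : ℝ)| = 3 * |(x : ℝ)| - 1 := by
        have h2 : 2 * |TZ x| = 3 * |x| - 1 := by
          rw [abs_of_neg hTx, abs_of_neg hx]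
          linarith
        exact_mod_cast h2
      rw [← hxdef, pow_succ]
      have h3 : 3 * |(x : ℝ)| - 1 ≠ 0 := by
        have : (0 : ℝ) < 3 * |(x : ℝ)| - 1 := by linarith
        exact this.ne'
      calc (3 : ℝ) ^ oc k m * 3 * |(m : ℝ)| = 3 * (3 ^ oc k m * |(m : ℝ)|) := by ring
        _ = 2 ^ k * (3 * |(x : ℝ)|) * ∏ i ∈ (range k).filter (fun i => TZ^[i] m % 2 = 1),
            (1 + 1 / (3 * |((TZ^[i] m : ℤ) : ℝ)| - 1)) := by rw [ih]; ring
        _ = 2 ^ k * ((3 * |(x : ℝ)| - 1) * (1 + 1 / (3 * |(x : ℝ)| - 1))) *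
            ∏ i ∈ (range k).filter (fun i => TZ^[i] m % 2 = 1),
              (1 + 1 / (3 * |((TZ^[i] m : ℤ) : ℝ)| - 1)) := by
            have : (3 * |(x : ℝ)| - 1) * (1 + 1 / (3 * |(x : ℝ)| - 1)) = 3 * |(x : ℝ)| := by
              field_simp
              ring
            rw [this]
        _ = _ := by rw [← h1']; ring
    · rw [if_neg hodd, if_neg hodd, add_zero]
      have h1 : 2 * TZ x = x := by
        unfold TZ
        rw [if_pos (by omega)]
        omega
      have h1' : 2 * |((TZ x : ℤ) : ℝ)| = |(x : ℝ)| := by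
        have h2 : 2 * |TZ x| = |x| := by
          rw [abs_of_neg hTx, abs_of_neg hx]
          linarith
        exact_mod_cast h2
      rw [ih, ← h1']
      ring

/-- lower bound for the starting point -/
theorem size_ge {m : ℤ} (h : m < 0) (k : ℕ) :
    (2 : ℝ) ^ k * |((TZ^[k] m : ℤ) : ℝ)| ≤ 3 ^ oc k m * |(m : ℝ)| := by
  rw [size_neg h k]
  have hone : (1 : ℝ) ≤ ∏ i ∈ (range k).filter (fun i => TZ^[i] m % 2 = 1),
      (1 + 1 / (3 * |((TZ^[i] m : ℤ) : ℝ)| - 1)) := by
    calc (1 : ℝ) = ∏ i ∈ (range k).filter (fun i => TZ^[i] m % 2 = 1), 1 := by simp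
      _ ≤ _ := by
          apply Finset.prod_le_prod
          · intro i _
            norm_num
          · intro i _
            have hx := TZ_iter_neg h i
            have hx1 : (1 : ℝ) ≤ |((TZ^[i] m : ℤ) : ℝ)| := by
              have : (1 : ℤ) ≤ |TZ^[i] m| := by rw [abs_of_neg hx]; omega
              exact_mod_cast this
            have : (0 : ℝ) ≤ 1 / (3 * |((TZ^[i] m : ℤ) : ℝ)| - 1) := by
              apply div_nonneg zero_le_one
              linarith
            linarith
  nlinarith [mul_nonneg (pow_nonneg (by norm_num : (0:ℝ) ≤ 2) k) (abs_nonneg ((TZ^[k] m : ℤ) : ℝ))]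

/-- upper bound for the starting point, if the end is not periodic -/
theorem size_le {m : ℤ} (h : m < 0) (k : ℕ) (hodd : TZ^[k] m % 2 = 1) (hper : ¬ Per (TZ^[k] m)) :
    (3 : ℝ) ^ oc k m * |(m : ℝ)| ≤ 2 ^ k * |((TZ^[k] m : ℤ) : ℝ)| * (oc k m + 1) := by
  classical
  -- the terms are distinct
  have hS : Set.InjOn (fun i => TZ^[i] m) (Set.Iio k) := by
    have key : ∀ i j : ℕ, i < j → j < k → TZ^[i] m ≠ TZ^[j] m := by
      intro i j hij hjk heq
      apply hper
      apply Per_of_T hodd (p := j - i) (by omega)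
      have e1 : j - i + k = (k - i) + j := by omega
      have e2 : k = (k - i) + i := by omega
      rw [← Function.iterate_add_apply, e1, Function.iterate_add_apply, ← heq,
        ← Function.iterate_add_apply, ← e2]
    intro i hi j hj heq
    rcases lt_trichotomy i j with h | h | h
    · exact absurd heq (key i j h hj)
    · exact h
    · exact absurd heq.symm (key j i h hi)
  have hne : ∀ i < k, TZ^[i] m ≠ -1 := by
    intro i hi heq
    apply hper
    have hfix : ∀ j : ℕ, TZ^[j] (-1) = -1 := fun j => Function.iterate_fixed (by decide) j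
    have e2 : k = (k - i) + i := by omega
    have e3 : TZ^[k] m = -1 := by
      rw [e2, Function.iterate_add_apply, heq, hfix]
    rw [e3]
    exact Per_of_T (by decide) (p := 1) le_rfl (hfix 1)
  rw [size_neg h k]
  apply mul_le_mul_of_nonneg_left _ (by positivity)
  set F : Finset ℕ := ((range k).filter (fun i => TZ^[i] m % 2 = 1)).image
    (fun i => (TZ^[i] m).natAbs - 1) with hF
  have hodd3 : ∀ i ∈ (range k).filter (fun i => TZ^[i] m % 2 = 1), 3 ≤ (TZ^[i] m).natAbs := by
    intro i hi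
    obtain ⟨hi1, hi2⟩ := mem_filter.1 hi
    have h3 := TZ_iter_neg h i
    have h4 := hne i (mem_range.1 hi1)
    omega
  have hinj : Set.InjOn (fun i => (TZ^[i] m).natAbs - 1)
      ((range k).filter (fun i => TZ^[i] m % 2 = 1) : Finset ℕ) := by
    intro i hi j hj hij
    have hi' := mem_range.1 (mem_filter.1 hi).1
    have hj' := mem_range.1 (mem_filter.1 hj).1
    apply hS hi' hj'
    have h3 := TZ_iter_neg h i
    have h4 := TZ_iter_neg h j
    have h5 := hodd3 i hi
    have h6 := hodd3 j hj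
    simp only at hij ⊢
    omega
  have hcard : F.card = oc k m := by
    rw [hF, card_image_of_injOn hinj]
    rfl
  calc ∏ i ∈ (range k).filter (fun i => TZ^[i] m % 2 = 1),
        (1 + 1 / (3 * |((TZ^[i] m : ℤ) : ℝ)| - 1))
      ≤ ∏ i ∈ (range k).filter (fun i => TZ^[i] m % 2 = 1),
        (1 + 1 / (3 * (((TZ^[i] m).natAbs - 1 : ℕ) : ℝ))) := by
        apply Finset.prod_le_prod
        · intro i hi
          have hx := TZ_iter_neg h i
          have hx1 : (1 : ℝ) ≤ |((TZ^[i] m : ℤ) : ℝ)| := by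
            have : (1 : ℤ) ≤ |TZ^[i] m| := by rw [abs_of_neg hx]; omega
            exact_mod_cast this
          have : (0 : ℝ) ≤ 1 / (3 * |((TZ^[i] m : ℤ) : ℝ)| - 1) := by
            apply div_nonneg zero_le_one
            linarith
          linarith
        · intro i hi
          have h5 := hodd3 i hi
          have e1 : |((TZ^[i] m : ℤ) : ℝ)| = (((TZ^[i] m).natAbs - 1 : ℕ) : ℝ) + 1 := by
            rw [Nat.cast_sub (by omega), Nat.cast_natAbs]
            push_cast
            ring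
          rw [e1]
          have h6 : (2 : ℝ) ≤ (((TZ^[i] m).natAbs - 1 : ℕ) : ℝ) := by
            have : 2 ≤ (TZ^[i] m).natAbs - 1 := by omega
            exact_mod_cast this
          have h7 : 1 / (3 * ((((TZ^[i] m).natAbs - 1 : ℕ) : ℝ) + 1) - 1) ≤
              1 / (3 * (((TZ^[i] m).natAbs - 1 : ℕ) : ℝ)) := by
            apply one_div_le_one_div_of_le
            · linarith
            · linarith
          linarith
    _ = ∏ b ∈ F, (1 + 1 / (3 * (b : ℝ))) := by
        rw [hF, prod_image hinj]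
    _ ≤ oc k m + 1 := by
        refine prod_le (oc k m) F hcard ?_
        intro b hb
        obtain ⟨i, hi, rfl⟩ := mem_image.1 hb
        have := hodd3 i hi
        omega

end Pool.Agent.Y966.Ng
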