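import Pool.Agent.Y966.Ng.A

/-!
Negative odd integers entering a cycle at a given element after exactly `k` steps: bounds.
-/

set_option autoImplicit false
set_option linter.unusedVariables false

namespace Pool.Agent.Y966.Ng

open Finset Filter Topology Pool.Agent.H395R2.G3 Pool.Agent.Y966.LD

/-- the negative odd `m ≥ -x` with `Sy^k m = c` and no periodic term before -/
def ES (c : ℤ) (x : ℝ) (k : ℕ) : Set ℤ :=
  {m : ℤ | m % 2 = 1 ∧ m < 0 ∧ -x ≤ (m : ℝ) ∧ Sy^[k] m = c ∧ ∀ i < k, ¬ Per (Sy^[i] m)}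

theorem ES_finite (c : ℤ) (x : ℝ) (k : ℕ) : (ES c x k).Finite := by
  apply (Set.finite_Icc (-⌈x⌉) 0).subset
  rintro m ⟨_, h1, h2, _⟩
  refine ⟨?_, h1.le⟩
  have h3 := Int.le_ceil x
  have : (-(⌈x⌉ : ℝ)) ≤ m := by linarith
  exact_mod_cast this

/-- cardinality of a finite union -/
theorem ncard_le_sum' {ι : Type*} [DecidableEq ι] (F : Finset ι) (S : ι → Set ℤ)
    (hfin : ∀ i ∈ F, (S i).Finite) :
    ∀ A : Set ℤ, (∀ a ∈ A, ∃ i ∈ F, a ∈ S i) → A.Finite ∧ A.ncard ≤ ∑ i ∈ F, (S i).ncard := by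
  induction F using Finset.induction_on with
  | empty =>
    intro A hA
    have : A = ∅ := by
      ext a
      simp only [Set.mem_empty_iff_false, iff_false]
      intro ha
      obtain ⟨i, hi, _⟩ := hA a ha
      simp at hi
    rw [this]
    simp
  | insert i F hi ih =>
    intro A hA
    have ih' := ih (fun j hj => hfin j (mem_insert_of_mem hj)) {a ∈ A | a ∉ S i} (by
      rintro a ⟨ha, hna⟩
      obtain ⟨j, hj, haj⟩ := hA a ha
      rcases mem_insert.1 hj with rfl | hj'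
      · exact absurd haj hna
      · exact ⟨j, hj', haj⟩)
    have hfi := hfin i (mem_insert_self i F)
    have hsub : A ⊆ S i ∪ {a ∈ A | a ∉ S i} := by
      intro a ha
      by_cases h : a ∈ S i
      · exact Or.inl h
      · exact Or.inr ⟨ha, h⟩
    refine ⟨(hfi.union ih'.1).subset hsub, ?_⟩
    rw [sum_insert hi]
    calc A.ncard ≤ (S i ∪ {a ∈ A | a ∉ S i}).ncard :=
          Set.ncard_le_ncard hsub (hfi.union ih'.1)
      _ ≤ (S i).ncard + {a ∈ A | a ∉ S i}.ncard := Set.ncard_union_le _ _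
      _ ≤ _ := Nat.add_le_add_left ih'.2 _

/-- the joint level sets of an arbitrary integer -/
theorem joint_upper' {z : ℝ} (h0 : 2 / 3 < z) (h1 : z < 1) {ε : ℝ} (hε : 0 < ε) :
    ∃ C : ℝ, 0 < C ∧ ∀ (k o : ℕ) (a : ℤ),
      ({n : ℤ | TZ^[k] n = a ∧ oc k n = o}.ncard : ℝ) ≤ C * Real.exp (ε * k + k * (-Real.log z) +
        o * (-Real.log (3 * (1 - z) / z))) := by
  obtain ⟨C, hC, hup⟩ := joint_upper h0 h1 hε
  refine ⟨C, hC, fun k o a => ?_⟩
  have hz0 : 0 < z := by linarith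
  have hth : Pool.Agent.Y966.NZ.th 3 z = 3 * (1 - z) / z := by
    unfold Pool.Agent.Y966.NZ.th
    push_cast
    rfl
  have hth0 : 0 < 3 * (1 - z) / z := by
    have : 0 < 1 - z := by linarith
    positivity
  have h4 := hup k o a
  rw [hth] at h4
  have h5 : (3 * (1 - z) / z) ^ o * z ^ k =
      Real.exp (-(k * (-Real.log z) + o * (-Real.log (3 * (1 - z) / z)))) := by
    have e1 : (3 * (1 - z) / z) ^ o = Real.exp (o * Real.log (3 * (1 - z) / z)) := by
      rw [Real.exp_nat_mul, Real.exp_log hth0]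
    have e2 : z ^ k = Real.exp (k * Real.log z) := by
      rw [Real.exp_nat_mul, Real.exp_log hz0]
    rw [e1, e2, ← Real.exp_add]
    congr 1
    ring
  rw [h5, Real.exp_neg, inv_mul_le_iff₀ (Real.exp_pos _)] at h4
  refine h4.trans (le_of_eq ?_)
  have e3 : Real.exp (ε * (k : ℝ) + k * (-Real.log z) + o * (-Real.log (3 * (1 - z) / z))) =
      Real.exp (k * (-Real.log z) + o * (-Real.log (3 * (1 - z) / z))) * Real.exp (ε * k) := by
    rw [← Real.exp_add]
    congr 1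
    ring
  rw [e3]
  ring

/-- upper bound, uniform in the element `c` -/
theorem up_core {z : ℝ} (h0 : 2 / 3 < z) (h1 : z < 1) {ε : ℝ} (hε : 0 < ε) :
    ∃ X₀ : ℝ, 1 < X₀ ∧ ∀ x : ℝ, X₀ ≤ x → ∀ k : ℕ, (k : ℝ) ≤ 2 * Real.log x → ∀ c : ℤ,
      ((ES c x k).ncard : ℝ) ≤ Real.exp (Real.log x * (uu (k / Real.log x) z + ε)) := by
  have hl2 : 0 < Real.log 2 := Real.log_pos (by norm_num)
  have hl3 : 0 < Real.log 3 := Real.log_pos (by norm_num)
  have hl23 : Real.log 2 < Real.log 3 := Real.log_lt_log (by norm_num) (by norm_num)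
  obtain ⟨ha, hab⟩ := tilt_facts h0 h1
  set W : ℝ := (1 + 2 * Real.log 3) / Real.log 2 with hW
  have hW0 : 0 < W := by positivity
  obtain ⟨C, hC, hup⟩ := joint_upper' h0 h1 (show 0 < ε / (4 * W) by positivity)
  set A : ℝ := -Real.log z / Real.log 2 with hA
  have hA0 : 0 < A := by positivity
  obtain ⟨K₂, hK₂0, hK₂⟩ := log_lin (show 0 < ε / (4 * W) by positivity)
  set L₀ : ℝ := max 1 (4 * (K₂ + |Real.log C|) / ε) with hL₀
  refine ⟨Real.exp L₀, ?_, fun x hx k hk c => ?_⟩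
  · have : 1 ≤ L₀ := le_max_left _ _
    have h2 := Real.add_one_le_exp L₀
    linarith
  have hx0 : 0 < x := lt_of_lt_of_le (Real.exp_pos _) hx
  have hL : L₀ ≤ Real.log x := by
    rw [Real.le_log_iff_exp_le hx0]
    exact hx
  set L : ℝ := Real.log x with hLdef
  have hL1 : 1 ≤ L := (le_max_left _ _).trans hL
  have hL2 : 4 * (K₂ + |Real.log C|) / ε ≤ L := (le_max_right _ _).trans hL
  have hkn : (0 : ℝ) ≤ k := Nat.cast_nonneg k
  set a : ℝ := -Real.log z with hadef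
  set b : ℝ := -Real.log (3 * (1 - z) / z) with hbdef
  set Sr : ℝ := (L + k * Real.log 3) / Real.log 2 with hSr
  have hSr0 : 0 ≤ Sr := by positivity
  have hSrW : Sr ≤ W * L := by
    rw [hSr, hW, div_mul_eq_mul_div]
    apply div_le_div_of_nonneg_right _ hl2.le
    have : k * Real.log 3 ≤ 2 * L * Real.log 3 := mul_le_mul_of_nonneg_right hk hl3.le
    linarith
  set K : ℕ := ⌊Sr⌋₊ with hK
  have hKle : (K : ℝ) ≤ Sr := Nat.floor_le hSr0
  classical
  have hcov : ∀ m ∈ ES c x k, ∃ s ∈ range (K + 1), m ∈ {n : ℤ | TZ^[s] n = c ∧ oc s n = k} := by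
    rintro m ⟨hm1, hm2, hm3, hm4, _⟩
    obtain ⟨s, hs1, hs2⟩ := Sy_to_T k m hm1
    rw [hm4] at hs1
    refine ⟨s, ?_, hs1, hs2⟩
    rw [mem_range, Nat.lt_succ_iff]
    apply Nat.le_floor
    have hge := size_ge hm2 s
    rw [hs2] at hge
    have hTn := TZ_iter_neg hm2 s
    have h1' : (1 : ℝ) ≤ |((TZ^[s] m : ℤ) : ℝ)| := by
      have : (1 : ℤ) ≤ |TZ^[s] m| := by rw [abs_of_neg hTn]; omega
      exact_mod_cast this
    have hmx : |(m : ℝ)| ≤ x := by
      have : (m : ℝ) < 0 := by exact_mod_cast hm2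
      rw [abs_of_neg this]
      linarith
    have h2' : (2 : ℝ) ^ s ≤ 3 ^ k * x := by
      calc (2 : ℝ) ^ s = 2 ^ s * 1 := by ring
        _ ≤ 2 ^ s * |((TZ^[s] m : ℤ) : ℝ)| := mul_le_mul_of_nonneg_left h1' (by positivity)
        _ ≤ 3 ^ k * |(m : ℝ)| := hge
        _ ≤ 3 ^ k * x := mul_le_mul_of_nonneg_left hmx (by positivity)
    have h3' := Real.log_le_log (by positivity) h2'
    rw [Real.log_mul (by positivity) hx0.ne', Real.log_pow, Real.log_pow] at h3'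
    rw [hSr, le_div_iff₀ hl2]
    linarith
  obtain ⟨hfin, hncard⟩ := ncard_le_sum' (range (K + 1)) (fun s => {n : ℤ | TZ^[s] n = c ∧ oc s n = k})
    (fun s _ => (ncard_le_WO s k c).1) (ES c x k) hcov
  have hncard' : ((ES c x k).ncard : ℝ) ≤
      ∑ s ∈ range (K + 1), ({n : ℤ | TZ^[s] n = c ∧ oc s n = k}.ncard : ℝ) := by
    exact_mod_cast hncard
  set B : ℝ := C * Real.exp (ε / (4 * W) * Sr + Sr * a + k * b) with hB
  have hB0 : 0 ≤ B := by positivity
  have hterm : ∀ s ∈ range (K + 1), ({n : ℤ | TZ^[s] n = c ∧ oc s n = k}.ncard : ℝ) ≤ B := by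
    intro s hs
    have hsK : s ≤ K := by
      rw [mem_range] at hs
      omega
    have hsS : (s : ℝ) ≤ Sr := (by exact_mod_cast hsK : (s : ℝ) ≤ K).trans hKle
    refine (hup s k c).trans ?_
    apply mul_le_mul_of_nonneg_left _ hC.le
    apply Real.exp_le_exp.2
    have g1 : ε / (4 * W) * (s : ℝ) ≤ ε / (4 * W) * Sr := mul_le_mul_of_nonneg_left hsS (by positivity)
    have g2 : (s : ℝ) * a ≤ Sr * a := mul_le_mul_of_nonneg_right hsS ha.le
    linarith
  have hsum : ∑ s ∈ range (K + 1), ({n : ℤ | TZ^[s] n = c ∧ oc s n = k}.ncard : ℝ) ≤ (Sr + 1) * B := by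
    calc ∑ s ∈ range (K + 1), ({n : ℤ | TZ^[s] n = c ∧ oc s n = k}.ncard : ℝ)
        ≤ ∑ s ∈ range (K + 1), B := sum_le_sum hterm
      _ = ((K : ℝ) + 1) * B := by
          rw [sum_const, card_range, nsmul_eq_mul]
          push_cast
          ring
      _ ≤ (Sr + 1) * B := by
          apply mul_le_mul_of_nonneg_right _ hB0
          linarith
  refine (hncard'.trans hsum).trans ?_
  have hL0 : 0 < L := by linarith
  have hSa : Sr * a = L * (SS (k / L) * a) := by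
    rw [hSr]
    unfold SS
    field_simp
  have hkb : (k : ℝ) * b = L * (k / L * b) := by
    field_simp
  have huu : L * uu (k / L) z = L * (SS (k / L) * a) + L * (k / L * b) := by
    unfold uu
    ring
  have hS1 : (0 : ℝ) < Sr + 1 := by linarith
  have e3 : (Sr + 1) * B = Real.exp (Real.log (Sr + 1) + (Real.log C +
      (ε / (4 * W) * Sr + Sr * a + k * b))) := by
    rw [Real.exp_add, Real.exp_add, Real.exp_log hS1, Real.exp_log hC, hB]
  have g5 : Real.log (Sr + 1) ≤ ε / 4 * L + K₂ := by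
    have g6 := hK₂ Sr hSr0
    have g7 : ε / (4 * W) * Sr ≤ ε / (4 * W) * (W * L) :=
      mul_le_mul_of_nonneg_left hSrW (by positivity)
    have g8 : ε / (4 * W) * (W * L) = ε / 4 * L := by field_simp
    linarith
  have g9 : ε / (4 * W) * Sr ≤ ε / 4 * L := by
    have g7 : ε / (4 * W) * Sr ≤ ε / (4 * W) * (W * L) :=
      mul_le_mul_of_nonneg_left hSrW (by positivity)
    have g8 : ε / (4 * W) * (W * L) = ε / 4 * L := by field_simp
    linarith
  have g10 : K₂ + |Real.log C| ≤ ε / 4 * L := by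
    rw [div_le_iff₀ hε] at hL2
    linarith
  have g11 := le_abs_self (Real.log C)
  rw [e3]
  apply Real.exp_le_exp.2
  rw [hSa, hkb]
  have : L * (uu (k / L) z + ε) = L * uu (k / L) z + ε * L := by ring
  rw [this, huu]
  have hεL : 0 ≤ ε * L := by positivity
  linarith

/-- local upper bound -/
theorem up_local {β : ℝ} (h : 0 ≤ β) (h1 : β ≤ 1 / Real.log (8 / 3)) {ε : ℝ} (hε : 0 < ε) :
    ∃ δ : ℝ, 0 < δ ∧ ∃ X₀ : ℝ, 1 < X₀ ∧ ∀ x : ℝ, X₀ ≤ x → ∀ k : ℕ, (k : ℝ) ≤ 2 * Real.log x →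
      |(k : ℝ) / Real.log x - β| < δ → ∀ c : ℤ,
      ((ES c x k).ncard : ℝ) ≤ Real.exp (Real.log x * (ee (k / Real.log x) + ε)) := by
  obtain ⟨z, hz0, hz1, hz2⟩ := exists_tilt h h1 (show 0 < ε / 4 by positivity)
  have c1 := (uu_cont z).continuousAt (x := β)
  have c2 := ee_contAt h
  have e1 : ∀ᶠ y in 𝓝 β, uu y z < uu β z + ε / 4 := c1.eventually (gt_mem_nhds (by linarith))
  have e2 : ∀ᶠ y in 𝓝 β, ee β - ε / 4 < ee y := c2.eventually (lt_mem_nhds (by linarith))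
  obtain ⟨δ, hδ, hball⟩ := Metric.eventually_nhds_iff.1 (e1.and e2)
  obtain ⟨X₀, hX₀, hup⟩ := up_core hz0 hz1 (show 0 < ε / 4 by positivity)
  refine ⟨δ, hδ, X₀, hX₀, fun x hx k hk hkβ c => ?_⟩
  have hlog : 0 < Real.log x := Real.log_pos (by linarith)
  obtain ⟨g1, g2⟩ := hball (y := (k : ℝ) / Real.log x) (by rw [Real.dist_eq]; exact hkβ)
  refine (hup x hx k hk c).trans (Real.exp_le_exp.2 ?_)
  apply mul_le_mul_of_nonneg_left _ hlog.le
  linarith

/-- a preimage outside the cycles -/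
theorem exists_entry {c : ℤ} (hc : c % 2 = 1) (hc0 : c < 0) (hp : Per c) :
    ∃ c' : ℤ, c' % 2 = 1 ∧ c' < 0 ∧ ¬ (3 : ℤ) ∣ c' ∧ Sy c' = c ∧ ¬ Per c' := by
  -- `3` does not divide `c`
  have h3 : c % 3 ≠ 0 := by
    obtain ⟨p, hp1, hp2⟩ := hp
    obtain ⟨q, rfl⟩ : ∃ q, p = q + 1 := ⟨p - 1, by omega⟩
    rw [Function.iterate_succ_apply'] at hp2
    have hodd : ∀ j : ℕ, Sy^[j] c % 2 = 1 := by
      intro j
      induction j with
      | zero => exact hc
      | succ j ih =>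
        rw [Function.iterate_succ_apply']
        obtain ⟨e, _, _, h⟩ := exists_letter ih
        exact h
    obtain ⟨e, he, heq, _⟩ := exists_letter (hodd q)
    rw [hp2] at heq
    intro h0
    obtain ⟨d, hd⟩ : ∃ d, c = 3 * d := ⟨c / 3, by omega⟩
    have heq' : 3 * Sy^[q] c + 1 = 2 ^ e * (3 * d) := by
      rw [← hd]
      exact heq
    have : (3 : ℤ) * (2 ^ e * d - Sy^[q] c) = 1 := by
      linear_combination -heq'
    omega
  have key : ∃ e : ℕ, 1 ≤ e ∧ (2 ^ e * c % 9 = 4 ∨ 2 ^ e * c % 9 = 7) := by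
    have h9 : c % 9 = 1 ∨ c % 9 = 2 ∨ c % 9 = 4 ∨ c % 9 = 5 ∨ c % 9 = 7 ∨ c % 9 = 8 := by omega
    rcases h9 with h | h | h | h | h | h
    · exact ⟨2, by norm_num, by omega⟩
    · exact ⟨1, by norm_num, by omega⟩
    · exact ⟨6, by norm_num, by omega⟩
    · exact ⟨3, by norm_num, by omega⟩
    · exact ⟨4, by norm_num, by omega⟩
    · exact ⟨1, by norm_num, by omega⟩
  obtain ⟨e, he, hmod⟩ := key
  have hmod2 : 2 ^ (e + 6) * c % 9 = 4 ∨ 2 ^ (e + 6) * c % 9 = 7 := by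
    have : (2 : ℤ) ^ (e + 6) * c = 64 * (2 ^ e * c) := by rw [pow_add]; ring
    omega
  have gen : ∀ f : ℕ, 1 ≤ f → (2 ^ f * c % 9 = 4 ∨ 2 ^ f * c % 9 = 7) →
      ∃ c' : ℤ, 3 * c' + 1 = 2 ^ f * c ∧ c' % 2 = 1 ∧ c' < 0 ∧ ¬ (3 : ℤ) ∣ c' ∧ Sy c' = c := by
    intro f hf hm
    obtain ⟨f', rfl⟩ : ∃ f', f = f' + 1 := ⟨f - 1, by omega⟩
    have hev : (2 : ℤ) ^ (f' + 1) * c = 2 * (2 ^ f' * c) := by ring
    have hneg : (2 : ℤ) ^ f' * c < 0 := mul_neg_of_pos_of_neg (by positivity) hc0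
    have hb : 3 * ((2 ^ (f' + 1) * c - 1) / 3) + 1 = 2 ^ (f' + 1) * c := by omega
    refine ⟨(2 ^ (f' + 1) * c - 1) / 3, hb, by omega, by omega, by omega, Sy_letter hc hb⟩
  obtain ⟨c1, a1, a2, a3, a4, a5⟩ := gen e he hmod
  obtain ⟨c2, b1, b2, b3, b4, b5⟩ := gen (e + 6) (by omega) hmod2
  by_cases h1 : Per c1
  · refine ⟨c2, b2, b3, b4, b5, fun h2 => ?_⟩
    have := Per_inj h1 h2 (by rw [a5, b5])
    rw [this, b1, pow_add] at a1
    have h5 : (2 : ℤ) ^ e * c ≠ 0 := mul_ne_zero (by positivity) (by omega)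
    have h6 : (2 : ℤ) ^ e * 2 ^ 6 * c = 64 * (2 ^ e * c) := by ring
    omega
  · exact ⟨c1, a2, a3, a4, a5, h1⟩

/-- every entrance time occurs -/
theorem exists_time {c : ℤ} (hc : c % 2 = 1) (hc0 : c < 0) (hp : Per c) (k : ℕ) :
    ∃ m : ℤ, m % 2 = 1 ∧ m < 0 ∧ ¬ (3 : ℤ) ∣ m ∧ Sy^[k + 1] m = c ∧
      ∀ i < k + 1, ¬ Per (Sy^[i] m) := by
  induction k with
  | zero =>
    obtain ⟨c', h1, h2, h3, h4, h5⟩ := exists_entry hc hc0 hp
    refine ⟨c', h1, h2, h3, h4, fun i hi => ?_⟩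
    have : i = 0 := by omega
    subst this
    exact h5
  | succ k ih =>
    obtain ⟨m, h1, h2, h3, h4, h5⟩ := ih
    have key : ∃ e : ℕ, 1 ≤ e ∧ (2 ^ e * m % 9 = 4 ∨ 2 ^ e * m % 9 = 7) := by
      have h9 : m % 9 = 1 ∨ m % 9 = 2 ∨ m % 9 = 4 ∨ m % 9 = 5 ∨ m % 9 = 7 ∨ m % 9 = 8 := by omega
      rcases h9 with h | h | h | h | h | h
      · exact ⟨2, by norm_num, by omega⟩
      · exact ⟨1, by norm_num, by omega⟩
      · exact ⟨6, by norm_num, by omega⟩
      · exact ⟨3, by norm_num, by omega⟩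
      · exact ⟨4, by norm_num, by omega⟩
      · exact ⟨1, by norm_num, by omega⟩
    obtain ⟨e, he, hmod⟩ := key
    obtain ⟨f', rfl⟩ : ∃ f', e = f' + 1 := ⟨e - 1, by omega⟩
    have hev : (2 : ℤ) ^ (f' + 1) * m = 2 * (2 ^ f' * m) := by ring
    have hneg : (2 : ℤ) ^ f' * m < 0 := mul_neg_of_pos_of_neg (by positivity) h2
    have hb : 3 * ((2 ^ (f' + 1) * m - 1) / 3) + 1 = 2 ^ (f' + 1) * m := by omega
    have hS : Sy ((2 ^ (f' + 1) * m - 1) / 3) = m := Sy_letter h1 hb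
    refine ⟨(2 ^ (f' + 1) * m - 1) / 3, by omega, by omega, by omega, ?_, ?_⟩
    · rw [Function.iterate_succ_apply, hS, h4]
    · intro i hi
      cases i with
      | zero =>
        intro hper
        have := Per_iter hper 1
        rw [Function.iterate_one, Function.iterate_zero, id, hS] at this
        exact h5 0 (by omega) this
      | succ i =>
        rw [Function.iterate_succ_apply, hS]
        exact h5 i (by omega)

end Pool.Agent.Y966.Ng
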