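import Pool.Agent.Y966.Ng.B

/-!
Negative odd integers entering a cycle at a given element after exactly `k` steps: the uniform law.
-/

set_option autoImplicit false
set_option linter.unusedVariables false

namespace Pool.Agent.Y966.Ng

open Finset Filter Topology Pool.Agent.H395R2.G3 Pool.Agent.Y966.LD

/-- the nodes above a preimage outside the cycles -/
theorem entry_ES {c c' : ℤ} (hS : Sy c' = c) (hodd : c' % 2 = 1) (hneg : c' < 0) (hper : ¬ Per c')
    {x : ℝ} (hx : 0 < x) {s n : ℕ}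
    (hsize : (s : ℝ) * Real.log 2 - n * Real.log 3 + Real.log |(c' : ℝ)| + Real.log (n + 1) ≤
      Real.log x) :
    {m : ℤ | TZ^[s] m = c' ∧ oc s m = n ∧ m % 2 = 1 ∧ ¬ (3 : ℤ) ∣ m ∧ (0 < c' → 0 < m) ∧
      (c' < 0 → m < 0)} ⊆ ES c x (n + 1) := by
  rintro m ⟨h1, h2, h3, h4, h5, h6⟩
  have hm := h6 hneg
  have hSn : Sy^[n] m = c' := by
    have := T_to_Sy s m h3 (by rw [h1]; exact hodd)
    rw [h2, h1] at this
    exact this
  refine ⟨h3, hm, ?_, ?_, ?_⟩
  · have hsz := size_le hm s (by rw [h1]; exact hodd) (by rw [h1]; exact hper)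
    rw [h1, h2] at hsz
    have hm0 : (m : ℝ) < 0 := by exact_mod_cast hm
    have hm1 : 0 < |(m : ℝ)| := abs_pos.2 hm0.ne
    have hc0 : (c' : ℝ) < 0 := by exact_mod_cast hneg
    have hc1 : 0 < |(c' : ℝ)| := abs_pos.2 hc0.ne
    have h7 := Real.log_le_log (by positivity) hsz
    rw [Real.log_mul (by positivity) hm1.ne', Real.log_mul (by positivity) (by positivity),
      Real.log_mul (by positivity) hc1.ne', Real.log_pow, Real.log_pow] at h7
    have h8 : Real.log |(m : ℝ)| ≤ Real.log x := by linarith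
    rw [Real.log_le_log_iff hm1 hx, abs_of_neg hm0] at h8
    linarith
  · rw [Function.iterate_succ_apply', hSn, hS]
  · intro i hi hP
    apply hper
    have := Per_iter hP (n - i)
    rw [← Function.iterate_add_apply, Nat.sub_add_cancel (by omega), hSn] at this
    exact this

/-- all small entrance times occur -/
theorem small_times {c : ℤ} (hc : c % 2 = 1) (hc0 : c < 0) (hp : Per c) :
    ∃ δ : ℝ, 0 < δ ∧ ∃ X₀ : ℝ, 1 < X₀ ∧ ∀ x : ℝ, X₀ ≤ x → ∀ k : ℕ, 1 ≤ k →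
    (k : ℝ) ≤ δ * Real.log x → (ES c x k).Nonempty := by
  have hl2 : 0 < Real.log 2 := Real.log_pos (by norm_num)
  have hl3 : 0 < Real.log 3 := Real.log_pos (by norm_num)
  have hF : 0 < FF (1 / 4) := FF_pos_of (by norm_num) (by norm_num : (1 / 4 : ℝ) < 4771 / 7833)
    (by norm_num) FF_low.le
  obtain ⟨n₀, hn₀⟩ := joint_lower (r := 1 / 4) (by norm_num) (by norm_num) hF one_pos
  obtain ⟨c', a1, a2, a3, a4, a5⟩ := exists_entry hc hc0 hp
  choose f hf using exists_time hc hc0 hp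
  set M : ℕ := ∑ i ∈ range (n₀ + 1), (f i).natAbs with hM
  have hc1 : (1 : ℝ) ≤ |(c' : ℝ)| := by
    have : (1 : ℤ) ≤ |c'| := by rw [abs_of_neg a2]; omega
    exact_mod_cast this
  have hlc : 0 ≤ Real.log |(c' : ℝ)| := Real.log_nonneg hc1
  refine ⟨1 / (2 * (5 * Real.log 2 + 1)), by positivity,
    max 2 (max (M + 1) (Real.exp (2 * Real.log |(c' : ℝ)|))), by
      exact lt_of_lt_of_le (by norm_num) (le_max_left _ _), fun x hx k hk1 hk2 => ?_⟩
  have hx2 : 2 ≤ x := (le_max_left _ _).trans hx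
  have hx0 : 0 < x := by linarith
  have hxM : (M : ℝ) + 1 ≤ x := ((le_max_left _ _).trans (le_max_right _ _)).trans hx
  have hxe : Real.exp (2 * Real.log |(c' : ℝ)|) ≤ x :=
    ((le_max_right _ _).trans (le_max_right _ _)).trans hx
  have hlx : 2 * Real.log |(c' : ℝ)| ≤ Real.log x := by
    rw [Real.le_log_iff_exp_le hx0]
    exact hxe
  obtain ⟨n, rfl⟩ : ∃ n, k = n + 1 := ⟨k - 1, by omega⟩
  rcases Nat.lt_or_ge n n₀ with hlt | hge
  · obtain ⟨g1, g2, g3, g4, g5⟩ := hf n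
    refine ⟨f n, g1, g2, ?_, g4, g5⟩
    have h5 : (f n).natAbs ≤ M := single_le_sum (f := fun i => (f i).natAbs)
      (fun i _ => Nat.zero_le _) (mem_range.2 (by omega))
    have h6 : -(M : ℤ) ≤ f n := by omega
    have h7 : (-(M : ℝ)) ≤ f n := by exact_mod_cast h6
    linarith
  · obtain ⟨s, hs1, hs2⟩ := hn₀ n hge c' a3
    have hpos : 0 < {m : ℤ | TZ^[s] m = c' ∧ oc s m = n ∧ m % 2 = 1 ∧ ¬ (3 : ℤ) ∣ m ∧
        (0 < c' → 0 < m) ∧ (c' < 0 → m < 0)}.ncard := by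
      have := (Real.exp_pos ((FF (1 / 4) / (1 / 4) - 1) * n)).trans_le hs2
      exact_mod_cast this
    obtain ⟨m, hm⟩ := Set.nonempty_of_ncard_ne_zero hpos.ne'
    refine ⟨m, entry_ES a4 a1 a2 a5 hx0 ?_ hm⟩
    have hs3 := (abs_le.1 hs1).2
    have hs4 : (s : ℝ) ≤ 5 * n := by
      have : (n : ℝ) / (1 / 4) = 4 * n := by ring
      linarith
    have hkn : (0 : ℝ) ≤ n := Nat.cast_nonneg n
    have hk3 : ((n : ℝ) + 1) * (2 * (5 * Real.log 2 + 1)) ≤ Real.log x := by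
      rw [div_mul_eq_mul_div, one_mul, le_div_iff₀ (by positivity)] at hk2
      push_cast at hk2
      exact hk2
    have h5 : (s : ℝ) * Real.log 2 ≤ 5 * n * Real.log 2 := mul_le_mul_of_nonneg_right hs4 hl2.le
    have h6 : 0 ≤ (n : ℝ) * Real.log 3 := by positivity
    have h7 : Real.log ((n : ℝ) + 1) ≤ n := by
      have := Real.log_le_sub_one_of_pos (show (0 : ℝ) < n + 1 by linarith)
      linarith
    nlinarith

/-- local lower bound away from `0` -/
theorem lo_pos {c : ℤ} (hc : c % 2 = 1) (hc0 : c < 0) (hp : Per c) {β : ℝ} (h : 0 < β)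
    (h1 : β ≤ 1 / Real.log (8 / 3)) (hβ2 : β ≤ 2) {ε : ℝ} (hε : 0 < ε) :
    ∃ δ : ℝ, 0 < δ ∧ ∃ X₀ : ℝ, 1 < X₀ ∧ ∀ x : ℝ, X₀ ≤ x → ∀ k : ℕ, 1 ≤ k →
      |(k : ℝ) / Real.log x - β| < δ →
      Real.exp (Real.log x * (ee (k / Real.log x) - ε)) ≤ ((ES c x k).ncard : ℝ) := by
  have hl2 : 0 < Real.log 2 := Real.log_pos (by norm_num)
  have hl3 : 0 < Real.log 3 := Real.log_pos (by norm_num)
  obtain ⟨c', a1, a2, a3, a4, a5⟩ := exists_entry hc hc0 hp
  obtain ⟨g1, g2⟩ := SS_rho h h1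
  have hS := SS_pos h.le
  set ρ : ℝ := β / SS β with hρ
  -- the choice of `r`
  have hval : β * (FF ρ / ρ) = ee β := by
    rw [ee_eq h.le, hρ]
    field_simp
  have hval2 : β * (Real.log 2 / ρ - Real.log 3) = 1 := by
    rw [hρ]
    unfold SS
    field_simp
    ring
  have c1 : ContinuousAt (fun r => β * (FF r / r)) ρ :=
    continuousAt_const.mul (FF_cont.continuousAt.div continuousAt_id g1.ne')
  have e1 : ∀ᶠ r in 𝓝[>] ρ, ee β - ε / 4 < β * (FF r / r) := by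
    refine (c1.mono_left nhdsWithin_le_nhds).eventually (lt_mem_nhds ?_)
    change ee β - ε / 4 < β * (FF ρ / ρ)
    rw [hval]
    linarith
  have e2 : ∀ᶠ r in 𝓝[>] ρ, r < 4771 / 7833 :=
    (gt_mem_nhds (lt_of_le_of_lt g2 third_lt)).filter_mono nhdsWithin_le_nhds
  obtain ⟨r, hr1, hr2, hr3⟩ := (e1.and (e2.and self_mem_nhdsWithin)).exists
  have hr3' : ρ < r := hr3
  have hr0 : 0 < r := by linarith
  have hr11 : r < 1 := by
    norm_num at hr2
    linarith
  have hFr : 0 < FF r := FF_pos_of hr0 hr2 (by norm_num) FF_low.le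
  have hsz : β * (Real.log 2 / r - Real.log 3) < 1 := by
    rw [← hval2]
    apply mul_lt_mul_of_pos_left _ h
    have : Real.log 2 / r < Real.log 2 / ρ := div_lt_div_of_pos_left hl2 g1 hr3'
    linarith
  -- the choice of `δ`
  have c2 := ee_contAt h.le
  have e3 : ∀ᶠ y in 𝓝 β, ee y < ee β + ε / 8 := c2.eventually (gt_mem_nhds (by linarith))
  have e4 : ∀ᶠ y in 𝓝 β, 0 < y := lt_mem_nhds h
  have c3 : ContinuousAt (fun q : ℝ × ℝ => q.1 * ((1 / r + q.2) * Real.log 2 - Real.log 3) + q.2)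
      (β, 0) := by fun_prop
  have e5 : ∀ᶠ q in 𝓝 ((β, 0) : ℝ × ℝ), q.1 * ((1 / r + q.2) * Real.log 2 - Real.log 3) + q.2 < 1 := by
    refine c3.eventually (gt_mem_nhds ?_)
    have : β * ((1 / r + 0) * Real.log 2 - Real.log 3) + 0 = β * (Real.log 2 / r - Real.log 3) := by
      ring
    change β * ((1 / r + 0) * Real.log 2 - Real.log 3) + 0 < 1
    rw [this]
    exact hsz
  have c4 : ContinuousAt (fun q : ℝ × ℝ => q.1 * (FF r / r - q.2)) (β, 0) := by fun_prop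
  have e6 : ∀ᶠ q in 𝓝 ((β, 0) : ℝ × ℝ), ee β - ε / 2 < q.1 * (FF r / r - q.2) := by
    refine c4.eventually (lt_mem_nhds ?_)
    change ee β - ε / 2 < β * (FF r / r - 0)
    rw [sub_zero]
    linarith
  obtain ⟨δ₁, hδ₁, hball₁⟩ := Metric.eventually_nhds_iff.1 (e3.and e4)
  obtain ⟨δ₂, hδ₂, hball₂⟩ := Metric.eventually_nhds_iff.1 (e5.and e6)
  set d : ℝ := δ₂ / 2 with hd
  have hd0 : 0 < d := by positivity
  obtain ⟨n₀, hn₀⟩ := joint_lower hr0 hr11 hFr hd0
  obtain ⟨K, hK0, hK⟩ := log_lin (show 0 < d / 12 by positivity)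
  set κ : ℝ := (1 / r + d) * Real.log 2 - Real.log 3 with hκ
  set G : ℝ := FF r / r - d with hG
  set Q : ℝ := |κ| + abs (Real.log |(c' : ℝ)|) + K with hQ
  have hQ0 : 0 ≤ Q := by positivity
  set δ : ℝ := min (min δ₁ δ₂) (β / 2) with hδ
  have hδ0 : 0 < δ := lt_min (lt_min hδ₁ hδ₂) (by positivity)
  refine ⟨δ, hδ0, Real.exp (max 1 (max (2 * (n₀ + 1) / β) (max (2 * Q / d) (4 * |G| / ε)))), ?_,
    fun x hx k hk1 hkβ => ?_⟩
  · have h5 := Real.add_one_le_exp (max 1 (max (2 * ((n₀ : ℝ) + 1) / β) (max (2 * Q / d) (4 * |G| / ε))))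
    have h6 : (1 : ℝ) ≤ max 1 (max (2 * ((n₀ : ℝ) + 1) / β) (max (2 * Q / d) (4 * |G| / ε))) :=
      le_max_left _ _
    linarith
  have hx0 : 0 < x := lt_of_lt_of_le (Real.exp_pos _) hx
  have hL : max 1 (max (2 * ((n₀ : ℝ) + 1) / β) (max (2 * Q / d) (4 * |G| / ε))) ≤ Real.log x := by
    rw [Real.le_log_iff_exp_le hx0]
    exact hx
  set L : ℝ := Real.log x with hLdef
  have hL1 : 1 ≤ L := (le_max_left _ _).trans hL
  have hL2 : 2 * ((n₀ : ℝ) + 1) / β ≤ L := ((le_max_left _ _).trans (le_max_right _ _)).trans hL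
  have hL3 : 2 * Q / d ≤ L :=
    ((le_max_left _ _).trans ((le_max_right _ _).trans (le_max_right _ _))).trans hL
  have hL4 : 4 * |G| / ε ≤ L :=
    ((le_max_right _ _).trans ((le_max_right _ _).trans (le_max_right _ _))).trans hL
  have hL0 : 0 < L := by linarith
  set y : ℝ := (k : ℝ) / L with hy
  have hky : (k : ℝ) = L * y := by
    rw [hy]
    field_simp
  have hδa : δ ≤ δ₁ := (min_le_left _ _).trans (min_le_left _ _)
  have hδb : δ ≤ δ₂ := (min_le_left _ _).trans (min_le_right _ _)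
  have hδc : δ ≤ β / 2 := min_le_right _ _
  obtain ⟨p1, p2⟩ := hball₁ (y := y) (by rw [Real.dist_eq]; linarith)
  have hdist : dist ((y, d) : ℝ × ℝ) (β, 0) < δ₂ := by
    rw [Prod.dist_eq, max_lt_iff]
    constructor
    · rw [Real.dist_eq]
      change |y - β| < δ₂
      linarith
    · rw [Real.dist_eq]
      change |d - 0| < δ₂
      rw [sub_zero, abs_of_pos hd0, hd]
      linarith
  obtain ⟨p3, p4⟩ := hball₂ hdist
  change y * ((1 / r + d) * Real.log 2 - Real.log 3) + d < 1 at p3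
  change ee β - ε / 2 < y * (FF r / r - d) at p4
  rw [← hκ] at p3
  rw [← hG] at p4
  have hy3 : y ≤ 3 := by
    have := (abs_lt.1 hkβ).2
    linarith
  obtain ⟨n, rfl⟩ : ∃ n, k = n + 1 := ⟨k - 1, by omega⟩
  have hkn0 : n₀ ≤ n := by
    have h5 : β / 2 ≤ y := by
      have := (abs_lt.1 hkβ).1
      linarith
    have h6 : (n₀ : ℝ) + 1 ≤ ((n + 1 : ℕ) : ℝ) := by
      rw [hky]
      rw [div_le_iff₀ h] at hL2
      nlinarith
    push_cast at h6
    have h7 : (n₀ : ℝ) ≤ n := by linarith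
    exact_mod_cast h7
  have hnr : (n : ℝ) = L * y - 1 := by
    have := hky
    push_cast at this
    linarith
  have hn0 : (0 : ℝ) ≤ n := Nat.cast_nonneg n
  obtain ⟨s, hs1, hs2⟩ := hn₀ n hkn0 c' a3
  have hs3 := (abs_le.1 hs1).2
  have hsize : (s : ℝ) * Real.log 2 - n * Real.log 3 + Real.log |(c' : ℝ)| + Real.log (n + 1) ≤
      Real.log x := by
    have h5 : (s : ℝ) ≤ n * (1 / r + d) := by
      have : (n : ℝ) / r + d * n = n * (1 / r + d) := by ring
      linarith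
    have h6 : (s : ℝ) * Real.log 2 ≤ n * (1 / r + d) * Real.log 2 :=
      mul_le_mul_of_nonneg_right h5 hl2.le
    have h9 : n * (1 / r + d) * Real.log 2 - n * Real.log 3 = L * (y * κ) - κ := by
      have : n * (1 / r + d) * Real.log 2 - n * Real.log 3 = (n : ℝ) * κ := by
        rw [hκ]
        ring
      rw [this, hnr]
      ring
    have h10 : L * (y * κ) + L * d ≤ L := by
      have := mul_le_mul_of_nonneg_left p3.le hL0.le
      linarith
    have h11 : Real.log ((n : ℝ) + 1) ≤ d / 4 * L + K := by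
      have h12 := hK n hn0
      have h13 : (n : ℝ) ≤ 3 * L := by
        rw [hnr]
        nlinarith
      have h14 : d / 12 * (n : ℝ) ≤ d / 12 * (3 * L) := mul_le_mul_of_nonneg_left h13 (by positivity)
      linarith
    have h15 : 2 * Q ≤ L * d := by
      rw [div_le_iff₀ hd0] at hL3
      exact hL3
    have h16 := neg_abs_le κ
    have h17 := le_abs_self (Real.log |(c' : ℝ)|)
    have h18 : 0 ≤ L * d := by positivity
    rw [← hLdef]
    linarith
  have hcard : ({m : ℤ | TZ^[s] m = c' ∧ oc s m = n ∧ m % 2 = 1 ∧ ¬ (3 : ℤ) ∣ m ∧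
      (0 < c' → 0 < m) ∧ (c' < 0 → m < 0)}.ncard : ℝ) ≤ ((ES c x (n + 1)).ncard : ℝ) := by
    exact_mod_cast Set.ncard_le_ncard (entry_ES a4 a1 a2 a5 hx0 hsize) (ES_finite c x (n + 1))
  refine le_trans (Real.exp_le_exp.2 ?_) (hs2.trans hcard)
  rw [hnr]
  have h19 : G * (L * y - 1) = L * (y * G) - G := by ring
  rw [h19]
  have h20 : L * (ee β - ε / 2) ≤ L * (y * G) := mul_le_mul_of_nonneg_left p4.le hL0.le
  have h21 : L * (ee y - ε) ≤ L * (ee β + ε / 8 - ε) :=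
    mul_le_mul_of_nonneg_left (by linarith) hL0.le
  have h22 : 4 * |G| ≤ L * ε := by
    rw [div_le_iff₀ hε] at hL4
    exact hL4
  have h23 := le_abs_self G
  have h24 : 0 ≤ L * ε := by positivity
  change L * (ee y - ε) ≤ _
  linarith

/-- local lower bound -/
theorem lo_local {c : ℤ} (hc : c % 2 = 1) (hc0 : c < 0) (hp : Per c) {β : ℝ} (h : 0 ≤ β)
    (h1 : β ≤ 1 / Real.log (8 / 3)) (hβ2 : β ≤ 2) {ε : ℝ} (hε : 0 < ε) :
    ∃ δ : ℝ, 0 < δ ∧ ∃ X₀ : ℝ, 1 < X₀ ∧ ∀ x : ℝ, X₀ ≤ x → ∀ k : ℕ, 1 ≤ k →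
      |(k : ℝ) / Real.log x - β| < δ →
      Real.exp (Real.log x * (ee (k / Real.log x) - ε)) ≤ ((ES c x k).ncard : ℝ) := by
  rcases eq_or_lt_of_le h with rfl | h0
  · have c2 := ee_contAt (le_refl (0 : ℝ))
    have e3 : ∀ᶠ y in 𝓝 (0 : ℝ), ee y < ε := c2.eventually (gt_mem_nhds (by rw [ee_zero]; exact hε))
    obtain ⟨δ₁, hδ₁, hball₁⟩ := Metric.eventually_nhds_iff.1 e3
    obtain ⟨δ₂, hδ₂, X₀, hX₀, hne⟩ := small_times hc hc0 hp
    refine ⟨min δ₁ δ₂, lt_min hδ₁ hδ₂, X₀, hX₀, fun x hx k hk hkβ => ?_⟩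
    have hlog : 0 < Real.log x := Real.log_pos (by linarith)
    have h5 := hball₁ (y := (k : ℝ) / Real.log x) (by
      rw [Real.dist_eq]
      exact hkβ.trans_le (min_le_left _ _))
    have h6 : (k : ℝ) ≤ δ₂ * Real.log x := by
      have h7 := (le_abs_self _).trans (hkβ.trans_le (min_le_right _ _)).le
      rw [sub_zero, div_le_iff₀ hlog] at h7
      exact h7
    have h8 : 1 ≤ (ES c x k).ncard := by
      have := (Set.ncard_pos (ES_finite c x k)).2 (hne x hx k hk h6)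
      omega
    have h9 : (1 : ℝ) ≤ ((ES c x k).ncard : ℝ) := by exact_mod_cast h8
    refine le_trans ?_ h9
    rw [Real.exp_le_one_iff]
    apply mul_nonpos_of_nonneg_of_nonpos hlog.le
    linarith
  · exact lo_pos hc hc0 hp h0 h1 hβ2 hε

/-- THE UNIFORM THEOREM -/
theorem main_entry {c : ℤ} (hc : c % 2 = 1) (hc0 : c < 0) (hp : Per c) {ε : ℝ} (hε : 0 < ε) :
    ∃ X₀ : ℝ, 1 < X₀ ∧ ∀ x : ℝ, X₀ ≤ x → ∀ k : ℕ, 1 ≤ k →
    (k : ℝ) ≤ 1 / Real.log (8 / 3) * Real.log x →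
    x ^ (ee (k / Real.log x) - ε) ≤ ((ES c x k).ncard : ℝ) ∧
      ((ES c x k).ncard : ℝ) ≤ x ^ (ee (k / Real.log x) + ε) := by
  have h83 : 0 < Real.log (8 / 3) := Real.log_pos (by norm_num)
  have h83' : 1 / 2 ≤ Real.log (8 / 3) := by
    have e : Real.log (8 / 3) = 3 * Real.log 2 - Real.log 3 := by
      rw [Real.log_div (by norm_num) (by norm_num), show (8 : ℝ) = 2 ^ 3 by norm_num, Real.log_pow]
      norm_num
    have l2a := Real.log_two_gt_d9
    have l3b := Real.log_three_lt_d9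
    norm_num at l2a l3b
    rw [e]
    linarith
  have hB2 : 1 / Real.log (8 / 3) ≤ 2 := by
    rw [div_le_iff₀ h83]
    linarith
  set B : ℝ := 1 / Real.log (8 / 3) with hB
  have hcomp : IsCompact (Set.Icc (0 : ℝ) B) := isCompact_Icc
  have key := hcomp.induction_on (p := fun S : Set ℝ => ∃ X₀ : ℝ, 1 < X₀ ∧ ∀ x : ℝ, X₀ ≤ x →
      ∀ k : ℕ, 1 ≤ k → (k : ℝ) / Real.log x ∈ S ∩ Set.Icc (0 : ℝ) B →
      Real.exp (Real.log x * (ee (k / Real.log x) - ε)) ≤ ((ES c x k).ncard : ℝ) ∧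
      ((ES c x k).ncard : ℝ) ≤ Real.exp (Real.log x * (ee (k / Real.log x) + ε)))
    ⟨2, by norm_num, fun x _ k _ hk => absurd hk.1 (Set.notMem_empty _)⟩
    (by
      rintro s t hst ⟨X₀, hX, h⟩
      exact ⟨X₀, hX, fun x hx k hk hks => h x hx k hk ⟨hst hks.1, hks.2⟩⟩)
    (by
      rintro s t ⟨X₀, hX, h⟩ ⟨X₁, hX', h'⟩
      refine ⟨max X₀ X₁, lt_max_of_lt_left hX, fun x hx k hk hks => ?_⟩
      rcases hks.1 with h5 | h5
      · exact h x ((le_max_left _ _).trans hx) k hk ⟨h5, hks.2⟩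
      · exact h' x ((le_max_right _ _).trans hx) k hk ⟨h5, hks.2⟩)
    (by
      intro β hβ
      obtain ⟨δ₁, hδ₁, X₁, hX₁, h₁⟩ := up_local hβ.1 hβ.2 hε
      obtain ⟨δ₂, hδ₂, X₂, hX₂, h₂⟩ := lo_local hc hc0 hp hβ.1 hβ.2 (hβ.2.trans hB2) hε
      refine ⟨Metric.ball β (min δ₁ δ₂), mem_nhdsWithin_of_mem_nhds
        (Metric.ball_mem_nhds β (lt_min hδ₁ hδ₂)), max X₁ X₂, lt_max_of_lt_left hX₁,
        fun x hx k hk hks => ?_⟩
      have hlog : 0 < Real.log x := Real.log_pos (by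
        have := (le_max_left X₁ X₂).trans hx
        linarith)
      have hd : |(k : ℝ) / Real.log x - β| < min δ₁ δ₂ := by
        have := hks.1
        rwa [Metric.mem_ball, Real.dist_eq] at this
      have hk2 : (k : ℝ) ≤ 2 * Real.log x := by
        have := hks.2.2
        rw [div_le_iff₀ hlog] at this
        have h5 : B * Real.log x ≤ 2 * Real.log x := mul_le_mul_of_nonneg_right hB2 hlog.le
        linarith
      exact ⟨h₂ x ((le_max_right _ _).trans hx) k hk (hd.trans_le (min_le_right _ _)),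
        h₁ x ((le_max_left _ _).trans hx) k hk2 (hd.trans_le (min_le_left _ _)) c⟩)
  obtain ⟨X₀, hX₀, h⟩ := key
  refine ⟨X₀, hX₀, fun x hx k hk hkB => ?_⟩
  have hx0 : 0 < x := by linarith
  have hlog : 0 < Real.log x := Real.log_pos (by linarith)
  have hmem : (k : ℝ) / Real.log x ∈ Set.Icc (0 : ℝ) B := by
    refine ⟨by positivity, ?_⟩
    rw [div_le_iff₀ hlog]
    exact hkB
  rw [Real.rpow_def_of_pos hx0, Real.rpow_def_of_pos hx0]
  exact h x hx k hk ⟨hmem, hmem⟩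

/-- the upper bound, uniformly in the element `c` -/
theorem main_up {ε : ℝ} (hε : 0 < ε) :
    ∃ X₀ : ℝ, 1 < X₀ ∧ ∀ x : ℝ, X₀ ≤ x → ∀ k : ℕ,
    (k : ℝ) ≤ 1 / Real.log (8 / 3) * Real.log x → ∀ c : ℤ,
      ((ES c x k).ncard : ℝ) ≤ x ^ (ee (k / Real.log x) + ε) := by
  have h83 : 0 < Real.log (8 / 3) := Real.log_pos (by norm_num)
  have h83' : 1 / 2 ≤ Real.log (8 / 3) := by
    have e : Real.log (8 / 3) = 3 * Real.log 2 - Real.log 3 := by
      rw [Real.log_div (by norm_num) (by norm_num), show (8 : ℝ) = 2 ^ 3 by norm_num, Real.log_pow]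
      norm_num
    have l2a := Real.log_two_gt_d9
    have l3b := Real.log_three_lt_d9
    norm_num at l2a l3b
    rw [e]
    linarith
  have hB2 : 1 / Real.log (8 / 3) ≤ 2 := by
    rw [div_le_iff₀ h83]
    linarith
  set B : ℝ := 1 / Real.log (8 / 3) with hB
  have hcomp : IsCompact (Set.Icc (0 : ℝ) B) := isCompact_Icc
  have key := hcomp.induction_on (p := fun S : Set ℝ => ∃ X₀ : ℝ, 1 < X₀ ∧ ∀ x : ℝ, X₀ ≤ x →
      ∀ k : ℕ, (k : ℝ) / Real.log x ∈ S ∩ Set.Icc (0 : ℝ) B → ∀ c : ℤ,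
      ((ES c x k).ncard : ℝ) ≤ Real.exp (Real.log x * (ee (k / Real.log x) + ε)))
    ⟨2, by norm_num, fun x _ k hk => absurd hk.1 (Set.notMem_empty _)⟩
    (by
      rintro s t hst ⟨X₀, hX, h⟩
      exact ⟨X₀, hX, fun x hx k hks => h x hx k ⟨hst hks.1, hks.2⟩⟩)
    (by
      rintro s t ⟨X₀, hX, h⟩ ⟨X₁, hX', h'⟩
      refine ⟨max X₀ X₁, lt_max_of_lt_left hX, fun x hx k hks => ?_⟩
      rcases hks.1 with h5 | h5
      · exact h x ((le_max_left _ _).trans hx) k ⟨h5, hks.2⟩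
      · exact h' x ((le_max_right _ _).trans hx) k ⟨h5, hks.2⟩)
    (by
      intro β hβ
      obtain ⟨δ₁, hδ₁, X₁, hX₁, h₁⟩ := up_local hβ.1 hβ.2 hε
      refine ⟨Metric.ball β δ₁, mem_nhdsWithin_of_mem_nhds
        (Metric.ball_mem_nhds β hδ₁), X₁, hX₁, fun x hx k hks c => ?_⟩
      have hlog : 0 < Real.log x := Real.log_pos (by linarith)
      have hd : |(k : ℝ) / Real.log x - β| < δ₁ := by
        have := hks.1
        rwa [Metric.mem_ball, Real.dist_eq] at this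
      have hk2 : (k : ℝ) ≤ 2 * Real.log x := by
        have := hks.2.2
        rw [div_le_iff₀ hlog] at this
        have h5 : B * Real.log x ≤ 2 * Real.log x := mul_le_mul_of_nonneg_right hB2 hlog.le
        linarith
      exact h₁ x hx k hk2 hd c)
  obtain ⟨X₀, hX₀, h⟩ := key
  refine ⟨X₀, hX₀, fun x hx k hkB c => ?_⟩
  have hx0 : 0 < x := by linarith
  have hlog : 0 < Real.log x := Real.log_pos (by linarith)
  have hmem : (k : ℝ) / Real.log x ∈ Set.Icc (0 : ℝ) B := by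
    refine ⟨by positivity, ?_⟩
    rw [div_le_iff₀ hlog]
    exact hkB
  rw [Real.rpow_def_of_pos hx0]
  exact h x hx k ⟨hmem, hmem⟩ c

end Pool.Agent.Y966.Ng
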